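import Mathlib

/-!
A point all of whose dilates avoid a small bad set.
-/

set_option autoImplicit false

open Finset

namespace Pool.Agent.W5h75.SR

theorem fibre (τ : ℝ) (h1 : 9 / 10 ≤ τ) (N : ℤ) (s : Finset ℤ) :
    (s.filter fun x : ℤ => ⌊(x : ℝ) * τ⌋ = N).card ≤ 2 := by
  have hτ : 0 < τ := by linarith
  have hsub : (s.filter fun x : ℤ => ⌊(x : ℝ) * τ⌋ = N) ⊆ Icc ⌈(N : ℝ) / τ⌉ (⌈(N : ℝ) / τ⌉ + 1) := by
    intro x hx
    rw [mem_filter] at hx
    obtain ⟨-, hx⟩ := hx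
    rw [Int.floor_eq_iff] at hx
    obtain ⟨k1, k2⟩ := hx
    rw [mem_Icc]
    constructor
    · rw [Int.ceil_le, div_le_iff₀ hτ]
      exact k1
    · have k3 : (x : ℝ) < (N : ℝ) / τ + 10 / 9 := by
        have k4 : (x : ℝ) * τ < ((N : ℝ) / τ + 10 / 9) * τ := by
          have : ((N : ℝ) / τ + 10 / 9) * τ = N + 10 / 9 * τ := by field_simp
          rw [this]
          linarith
        exact lt_of_mul_lt_mul_right k4 hτ.le
      have k4 := Int.le_ceil ((N : ℝ) / τ)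
      have k5 : (x : ℝ) < ((⌈(N : ℝ) / τ⌉ + 2 : ℤ) : ℝ) := by
        push_cast
        linarith
      have k6 : x < ⌈(N : ℝ) / τ⌉ + 2 := by exact_mod_cast k5
      omega
  refine (card_le_card hsub).trans ?_
  rw [Int.card_Icc]
  omega

theorem exists_good (M : ℕ) (L : List ℝ) (hL : ∀ τ ∈ L, 9 / 10 ≤ τ) (B : Finset ℤ)
    (hcount : 2 * L.length * B.card < M) :
    ∃ x : ℤ, 4 * (M : ℤ) ≤ x ∧ x < 5 * M ∧ ∀ τ ∈ L, ⌊(x : ℝ) * τ⌋ ∉ B := by
  classical
  by_contra hcon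
  push Not at hcon
  have hsub : Ico (4 * (M : ℤ)) (5 * M) ⊆ L.toFinset.biUnion
      (fun τ => (Ico (4 * (M : ℤ)) (5 * M)).filter fun x : ℤ => ⌊(x : ℝ) * τ⌋ ∈ B) := by
    intro x hx
    obtain ⟨h1, h2⟩ := mem_Ico.1 hx
    obtain ⟨τ, hτ, h3⟩ := hcon x h1 h2
    exact mem_biUnion.2 ⟨τ, List.mem_toFinset.2 hτ, mem_filter.2 ⟨hx, h3⟩⟩
  have hcard := card_le_card hsub
  rw [Int.card_Ico] at hcard
  have h1 : (5 * (M : ℤ) - 4 * M).toNat = M := by omega
  rw [h1] at hcard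
  have h2 : (L.toFinset.biUnion
      (fun τ => (Ico (4 * (M : ℤ)) (5 * M)).filter fun x : ℤ => ⌊(x : ℝ) * τ⌋ ∈ B)).card ≤
      L.toFinset.card * (2 * B.card) := by
    refine card_biUnion_le.trans ?_
    refine (sum_le_card_nsmul L.toFinset _ (2 * B.card) fun τ hτ => ?_).trans (by rw [smul_eq_mul])
    refine Finset.card_le_mul_card_image_of_maps_to (f := fun x : ℤ => ⌊(x : ℝ) * τ⌋)
      (fun x hx => (mem_filter.1 hx).2) 2 (fun N _ => ?_)
    exact fibre τ (hL τ (List.mem_toFinset.1 hτ)) N _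
  have h3 : L.toFinset.card * (2 * B.card) ≤ L.length * (2 * B.card) :=
    Nat.mul_le_mul_right _ (List.toFinset_card_le L)
  have h4 : L.length * (2 * B.card) = 2 * L.length * B.card := by ring
  omega

end Pool.Agent.W5h75.SR
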