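import Mathlib
import Pool.Agent.W5h75.SP.Core

/-!
Signs at rough tuples in very short intervals: comparison of two windows.
-/

set_option autoImplicit false

open Finset

namespace Pool.Agent.W5h75.SR

open Pool.Agent.H661R3.OP
open Pool.Agent.W5h75.SP (SVK rough_mul rough_ne_zero)

/-- the rough tuples of the window `(x, x + Z]`, in the class of `n₀` modulo `W`, whose sign is not
`c` -/
def Ex {ι : Type} (a b : ι → ℤ) (o : ι) (F : ℤ → ZMod 2) (W : ℕ) (n₀ : ℤ) (Y : ℕ) (Z : ℤ)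
    (x : ℝ) (c : ZMod 2) : Set ℤ :=
  {n : ℤ | x < n ∧ (n : ℝ) ≤ x + Z ∧ (W : ℤ) ∣ n - n₀ ∧ (∀ i, Rough Y (a i * n + b i)) ∧
    F (a o * n + b o) ≠ c}

theorem ex_finite {ι : Type} (a b : ι → ℤ) (o : ι) (F : ℤ → ZMod 2) (W : ℕ) (n₀ : ℤ) (Y : ℕ)
    (Z : ℤ) (x : ℝ) (c : ZMod 2) : (Ex a b o F W n₀ Y Z x c).Finite :=
  (Set.finite_Icc ⌊x⌋ ⌊x + Z⌋).subset fun n hn =>
    ⟨Int.floor_le_iff.2 (by have := hn.1; linarith), Int.le_floor.2 hn.2.1⟩

/-- up to `E` exceptions all the rough tuples of the window `(x, x + Z]`, in the class of `n₀` modulo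
`W`, have the same sign `c` -/
def Cst {ι : Type} (a b : ι → ℤ) (o : ι) (F : ℤ → ZMod 2) (W : ℕ) (n₀ : ℤ) (Y : ℕ) (Z : ℤ)
    (E : ℕ) (x : ℝ) (c : ZMod 2) : Prop :=
  (Ex a b o F W n₀ Y Z x c).ncard ≤ E

theorem rough_of_mul {Y : ℕ} {x y : ℤ} (h : Rough Y (x * y)) : Rough Y y := by
  intro p hp hpY hd
  exact h p hp hpY (hd.mul_left _)

theorem link {ι : Type} [Fintype ι] (a b : ι → ℤ) (o : ι) (W : ℕ) (n₀ : ℤ) (K C : ℕ)
    (hSV : SVK K C) (hK : 2 * Fintype.card ι ≤ K) (hW : 0 < W)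
    (hWp : ∀ p : ℕ, p.Prime → p ≤ 2 * K → p ∣ W)
    (hWa : ∀ i, ∀ p : ℕ, p.Prime → (p : ℤ) ∣ a i → p ∣ W) (Y : ℕ) (hY : 2 ≤ Y)
    (hao : 0 < a o)
    (hn₀ : ∀ i, ∀ p : ℕ, p.Prime → p ∣ W → ¬ (p : ℤ) ∣ a i * n₀ + b i)
    (F : ℤ → ZMod 2) (hF : Add2 F) (Z : ℤ) (E : ℕ) (x y : ℝ) (c c' : ZMod 2)
    (hx : Cst a b o F W n₀ Y Z E x c) (hy : Cst a b o F W n₀ Y Z E y c')
    (V V' v v' : ℤ) (hV : 0 < V) (hV' : 0 < V') (hrV : Rough Y V) (hrV' : Rough Y V')
    (hv : V = 1 + a o * W * v) (hv' : V' = 1 + a o * W * v')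
    (h1 : (|x / (V * W) - y / (V' * W)| + |(b o : ℝ)| +
      (Y : ℝ) ^ C * (2 * E + 1)) * (V * W) ≤ Z)
    (h2 : (|x / (V * W) - y / (V' * W)| + |(b o : ℝ)| +
      (Y : ℝ) ^ C * (2 * E + 1)) * (V' * W) ≤ Z) :
    c + c' = F V + F V' := by
  classical
  set μ : ℤ := a o * n₀ + b o with hμ
  have hWr : (1 : ℝ) ≤ W := by exact_mod_cast hW
  have hVr : (1 : ℝ) ≤ V := by exact_mod_cast hV
  have hVr' : (1 : ℝ) ≤ V' := by exact_mod_cast hV'
  have har : (1 : ℝ) ≤ a o := by exact_mod_cast hao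
  have hVW : (0 : ℝ) < V * W := by positivity
  have hVW' : (0 : ℝ) < V' * W := by positivity
  set τ₁ : ℝ := (x - n₀ - W * v * μ) / (V * W) with hτ₁
  set τ₂ : ℝ := (y - n₀ - W * v' * μ) / (V' * W) with hτ₂
  have hvr : (V : ℝ) = 1 + a o * W * v := by rw [hv]; push_cast; ring
  have hvr' : (V' : ℝ) = 1 + a o * W * v' := by rw [hv']; push_cast; ring
  have hdiff : τ₁ - τ₂ = (x / (V * W) - y / (V' * W)) +
      (1 / (V : ℝ) - 1 / V') * ((b o : ℝ) / (a o * W)) := by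
    have e0 : (0 : ℝ) < a o * W := by positivity
    have e1 : (v : ℝ) / V = (1 - 1 / V) / (a o * W) := by
      rw [div_eq_div_iff (by positivity) (by positivity)]
      have : (V : ℝ) * (1 / V) = 1 := by field_simp
      have : (1 - 1 / (V : ℝ)) * V = V - 1 := by linarith
      rw [this, hvr]; ring
    have e2 : (v' : ℝ) / V' = (1 - 1 / V') / (a o * W) := by
      rw [div_eq_div_iff (by positivity) (by positivity)]
      have : (V' : ℝ) * (1 / V') = 1 := by field_simp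
      have : (1 - 1 / (V' : ℝ)) * V' = V' - 1 := by linarith
      rw [this, hvr']; ring
    have e3 : τ₁ = x / (V * W) - n₀ / W * (1 / V) - μ * (v / V) := by
      rw [hτ₁]; field_simp
    have e4 : τ₂ = y / (V' * W) - n₀ / W * (1 / V') - μ * (v' / V') := by
      rw [hτ₂]; field_simp
    rw [e3, e4, e1, e2, hμ]
    push_cast
    field_simp
    ring
  have hs : |τ₁ - τ₂| ≤ |x / (V * W) - y / (V' * W)| + |(b o : ℝ)| := by
    rw [hdiff]
    refine (abs_add_le _ _).trans ?_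
    refine add_le_add le_rfl ?_
    rw [abs_mul, abs_div, abs_of_pos (by positivity : (0 : ℝ) < a o * W)]
    have g1 : |1 / (V : ℝ) - 1 / V'| ≤ 1 := by
      have k1 : 0 < 1 / (V : ℝ) := by positivity
      have k2 : 0 < 1 / (V' : ℝ) := by positivity
      have k3 : 1 / (V : ℝ) ≤ 1 := by
        rw [div_le_one (by positivity)]; exact hVr
      have k4 : 1 / (V' : ℝ) ≤ 1 := by
        rw [div_le_one (by positivity)]; exact hVr'
      rw [abs_le]
      constructor <;> linarith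
    have g2 : |(b o : ℝ)| / (a o * W) ≤ |(b o : ℝ)| := by
      apply div_le_self (abs_nonneg _)
      nlinarith
    have g3 : 0 ≤ |(b o : ℝ)| / (a o * W) := by positivity
    calc |1 / (V : ℝ) - 1 / V'| * (|(b o : ℝ)| / (a o * W))
        ≤ 1 * (|(b o : ℝ)| / (a o * W)) := mul_le_mul_of_nonneg_right g1 g3
      _ ≤ |(b o : ℝ)| := by rw [one_mul]; exact g2
  set T₀ : ℤ := ⌊max τ₁ τ₂⌋ + 1 with hT₀
  have hlo : ∀ t : ℤ, T₀ ≤ t → max τ₁ τ₂ < t := by
    intro t ht
    have : ⌊max τ₁ τ₂⌋ < t := by omega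
    exact Int.floor_lt.1 this
  have hhi : ∀ t : ℤ, t < T₀ + (Y ^ C * (2 * E + 1) : ℕ) → (t : ℝ) ≤ max τ₁ τ₂ + (Y : ℝ) ^ C * (2 * E + 1) := by
    intro t ht
    have g1 : t ≤ ⌊max τ₁ τ₂⌋ + (Y ^ C * (2 * E + 1) : ℕ) := by omega
    have g2 : (t : ℝ) ≤ (⌊max τ₁ τ₂⌋ : ℝ) + ((Y ^ C * (2 * E + 1) : ℕ) : ℝ) := by
      exact_mod_cast g1
    have g3 := Int.floor_le (max τ₁ τ₂)
    push_cast at g2
    linarith
  have hmax1 : max τ₁ τ₂ ≤ τ₁ + |τ₁ - τ₂| := by
    apply max_le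
    · have := abs_nonneg (τ₁ - τ₂); linarith
    · have := neg_abs_le (τ₁ - τ₂); linarith
  have hmax2 : max τ₁ τ₂ ≤ τ₂ + |τ₁ - τ₂| := by
    apply max_le
    · have := le_abs_self (τ₁ - τ₂); linarith
    · have := abs_nonneg (τ₁ - τ₂); linarith
  set nn : ℤ → ℤ := fun t => n₀ + W * v * μ + V * W * t with hnn
  set nn' : ℤ → ℤ := fun t => n₀ + W * v' * μ + V' * W * t with hnn'
  have e1 : ∀ t, a o * nn t + b o = V * (μ + a o * W * t) := by
    intro t
    simp only [hnn]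
    rw [hv, hμ]
    ring
  have e2 : ∀ t, a o * nn' t + b o = V' * (μ + a o * W * t) := by
    intro t
    simp only [hnn']
    rw [hv', hμ]
    ring
  have hτ₁' : τ₁ * (V * W) = x - n₀ - W * v * μ := by
    rw [hτ₁]; field_simp
  have hτ₂' : τ₂ * (V' * W) = y - n₀ - W * v' * μ := by
    rw [hτ₂]; field_simp
  have hin1 : ∀ t : ℤ, T₀ ≤ t → t < T₀ + (Y ^ C * (2 * E + 1) : ℕ) → x < (nn t : ℝ) ∧ (nn t : ℝ) ≤ x + Z := by
    intro t ht1 ht2
    have k1 := hlo t ht1
    have k2 := hhi t ht2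
    have k3 : (nn t : ℝ) = n₀ + W * v * μ + t * (V * W) := by
      simp only [hnn]; push_cast; ring
    have k4 : τ₁ * (V * W) < t * (V * W) :=
      mul_lt_mul_of_pos_right (lt_of_le_of_lt (le_max_left _ _) k1) hVW
    have k5 : (t : ℝ) * (V * W) ≤ (τ₁ + (|x / (V * W) - y / (V' * W)| + |(b o : ℝ)| +
        (Y : ℝ) ^ C * (2 * E + 1))) * (V * W) := mul_le_mul_of_nonneg_right (by linarith) hVW.le
    rw [add_mul] at k5
    rw [k3]
    constructor <;> linarith
  have hin2 : ∀ t : ℤ, T₀ ≤ t → t < T₀ + (Y ^ C * (2 * E + 1) : ℕ) → y < (nn' t : ℝ) ∧ (nn' t : ℝ) ≤ y + Z := by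
    intro t ht1 ht2
    have k1 := hlo t ht1
    have k2 := hhi t ht2
    have k3 : (nn' t : ℝ) = n₀ + W * v' * μ + t * (V' * W) := by
      simp only [hnn']; push_cast; ring
    have k4 : τ₂ * (V' * W) < t * (V' * W) :=
      mul_lt_mul_of_pos_right (lt_of_le_of_lt (le_max_right _ _) k1) hVW'
    have k5 : (t : ℝ) * (V' * W) ≤ (τ₂ + (|x / (V * W) - y / (V' * W)| + |(b o : ℝ)| +
        (Y : ℝ) ^ C * (2 * E + 1))) * (V' * W) := mul_le_mul_of_nonneg_right (by linarith) hVW'.le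
    rw [add_mul] at k5
    rw [k3]
    constructor <;> linarith
  -- the sieve
  set U : Bool → ℤ := fun β => if β then V' else V with hU
  set u : Bool → ℤ := fun β => if β then v' else v with hu
  have hUr : ∀ β, Rough Y (U β) := by intro β; cases β <;> simp [hU, hrV, hrV']
  have hsv := hSV (ι × Bool) (by
      rw [Fintype.card_prod, Fintype.card_bool]; omega)
    (fun x => a x.1 * U x.2 * W) (fun x => a x.1 * (n₀ + W * u x.2 * μ) + b x.1) Y hY (by
      rintro ⟨i, β⟩ p hp hpY hd hd'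
      simp only at hd hd'
      have key : p ∣ W → False := by
        intro h
        have h1 : (p : ℤ) ∣ a i * n₀ + b i := by
          have h2 : a i * n₀ + b i = (a i * (n₀ + W * u β * μ) + b i) - W * (a i * u β * μ) := by
            ring
          rw [h2]
          exact dvd_sub hd' ((Int.natCast_dvd_natCast.2 h).mul_right _)
        exact hn₀ i p hp h h1
      rcases Int.Prime.dvd_mul' hp hd with h | h
      · rcases Int.Prime.dvd_mul' hp h with h | h
        · exact key (hWa i p hp h)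
        · exact hUr β p hp hpY h
      · exact key (Int.natCast_dvd_natCast.1 h))
    (by
      rintro ⟨i, β⟩ p hp hpK
      exact (Int.natCast_dvd_natCast.2 (hWp p hp hpK)).mul_left _)
    T₀ (Y ^ C * (2 * E + 1)) (Nat.le_mul_of_pos_right _ (by omega))
  set G : Set ℤ := {t : ℤ | T₀ ≤ t ∧ t < T₀ + (Y ^ C * (2 * E + 1) : ℕ) ∧
    ∀ x : ι × Bool, Rough Y (a x.1 * U x.2 * W * t + (a x.1 * (n₀ + W * u x.2 * μ) + b x.1))}
    with hG
  have hGfin : G.Finite := (Set.finite_Ico T₀ (T₀ + (Y ^ C * (2 * E + 1) : ℕ))).subset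
    fun t ht => ⟨ht.1, ht.2.1⟩
  have hcard : 2 * E + 1 ≤ G.ncard := Nat.le_of_mul_le_mul_left hsv (by positivity)
  by_contra hne
  have hcover : G ⊆ {t ∈ G | nn t ∈ Ex a b o F W n₀ Y Z x c} ∪
      {t ∈ G | nn' t ∈ Ex a b o F W n₀ Y Z y c'} := by
    intro t ht
    obtain ⟨ht1, ht2, ht3⟩ := ht
    have hr1 : ∀ i, Rough Y (a i * nn t + b i) := by
      intro i
      have := ht3 (i, false)
      have e : a i * nn t + b i = a i * U false * W * t + (a i * (n₀ + W * u false * μ) + b i) := by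
        simp only [hnn, hU, hu]
        simp
        ring
      rw [e]
      exact this
    have hr2 : ∀ i, Rough Y (a i * nn' t + b i) := by
      intro i
      have := ht3 (i, true)
      have e : a i * nn' t + b i = a i * U true * W * t + (a i * (n₀ + W * u true * μ) + b i) := by
        simp only [hnn', hU, hu]
        simp
        ring
      rw [e]
      exact this
    have hm0 : μ + a o * W * t ≠ 0 := by
      have := hr1 o
      rw [e1] at this
      exact rough_ne_zero hY (rough_of_mul this)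
    by_contra hcon
    rw [Set.mem_union, not_or] at hcon
    obtain ⟨h4, h5⟩ := hcon
    have h6 : F (a o * nn t + b o) = c := by
      by_contra h
      exact h4 ⟨⟨ht1, ht2, ht3⟩, (hin1 t ht1 ht2).1, (hin1 t ht1 ht2).2, ⟨v * μ + V * t, by
        simp only [hnn]; ring⟩, hr1, h⟩
    have h7 : F (a o * nn' t + b o) = c' := by
      by_contra h
      exact h5 ⟨⟨ht1, ht2, ht3⟩, (hin2 t ht1 ht2).1, (hin2 t ht1 ht2).2, ⟨v' * μ + V' * t, by
        simp only [hnn']; ring⟩, hr2, h⟩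
    rw [e1, hF _ _ hV.ne' hm0] at h6
    rw [e2, hF _ _ hV'.ne' hm0] at h7
    apply hne
    rw [← h6, ← h7]
    have h2 : ∀ s p q : ZMod 2, p + s + (q + s) = p + q := by decide
    exact h2 _ _ _
  have hWz : (0 : ℤ) < W := by exact_mod_cast hW
  have k1 : {t ∈ G | nn t ∈ Ex a b o F W n₀ Y Z x c}.ncard ≤ E := by
    refine le_trans (Set.ncard_le_ncard_of_injOn nn (fun t ht => ht.2) ?_
      (ex_finite _ _ _ _ _ _ _ _ _ _)) hx
    intro s _ t _ hst
    simp only [hnn] at hst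
    have : V * W * s = V * W * t := by linarith
    exact mul_left_cancel₀ (mul_pos hV hWz).ne' this
  have k2 : {t ∈ G | nn' t ∈ Ex a b o F W n₀ Y Z y c'}.ncard ≤ E := by
    refine le_trans (Set.ncard_le_ncard_of_injOn nn' (fun t ht => ht.2) ?_
      (ex_finite _ _ _ _ _ _ _ _ _ _)) hy
    intro s _ t _ hst
    simp only [hnn'] at hst
    have : V' * W * s = V' * W * t := by linarith
    exact mul_left_cancel₀ (mul_pos hV' hWz).ne' this
  have k3 := Set.ncard_le_ncard hcover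
    ((hGfin.subset fun t ht => ht.1).union (hGfin.subset fun t ht => ht.1))
  have k4 := Set.ncard_union_le {t ∈ G | nn t ∈ Ex a b o F W n₀ Y Z x c}
    {t ∈ G | nn' t ∈ Ex a b o F W n₀ Y Z y c'}
  omega

end Pool.Agent.W5h75.SR
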