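import Mathlib

/-!
Iterated differences of the logarithm.
-/

set_option autoImplicit false

open Finset

namespace Pool.Agent.W5h75.SR

/-- iterated differences of `log` with step `D` -/
noncomputable def g (D : ℝ) : ℕ → ℝ → ℝ
  | 0, u => Real.log u
  | (k + 1), u => g D k (u + D) - g D k u

/-- iterated differences of `1 / u` with step `D` -/
noncomputable def rr (D : ℝ) : ℕ → ℝ → ℝ
  | 0, u => u⁻¹
  | (k + 1), u => rr D k (u + D) - rr D k u

theorem hasDerivAt_g (D : ℝ) (hD : 0 ≤ D) : ∀ (k : ℕ) (u : ℝ), 0 < u →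
    HasDerivAt (g D k) (rr D k u) u := by
  intro k
  induction k with
  | zero =>
    intro u hu
    exact Real.hasDerivAt_log hu.ne'
  | succ k ih =>
    intro u hu
    have h1 : HasDerivAt (fun x => g D k (x + D)) (rr D k (u + D)) u :=
      (ih (u + D) (by linarith)).comp_add_const u D
    exact h1.sub (ih u hu)

theorem rr_eq (D : ℝ) (hD : 0 ≤ D) : ∀ (k : ℕ) (u : ℝ), 0 < u →
    rr D k u = (-1) ^ k * (k.factorial : ℝ) * D ^ k / ∏ i ∈ range (k + 1), (u + i * D) := by
  intro k
  induction k with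
  | zero =>
    intro u hu
    simp [rr]
  | succ k ih =>
    intro u hu
    have hpos : ∀ i : ℕ, 0 < u + i * D := fun i => by positivity
    set P : ℝ := ∏ i ∈ range k, (u + ((i + 1 : ℕ) : ℝ) * D) with hP
    have hP0 : P ≠ 0 := by
      rw [hP]
      exact prod_ne_zero_iff.2 fun i _ => (hpos (i + 1)).ne'
    have e1 : ∏ i ∈ range (k + 1), (u + (i : ℝ) * D) = P * u := by
      rw [prod_range_succ']
      simp [hP]
    have e2 : ∏ i ∈ range (k + 1), (u + D + (i : ℝ) * D) = P * (u + ((k + 1 : ℕ) : ℝ) * D) := by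
      rw [prod_range_succ]
      congr 1
      · rw [hP]
        refine prod_congr rfl fun i _ => ?_
        push_cast
        ring
      · push_cast
        ring
    have e3 : ∏ i ∈ range (k + 1 + 1), (u + (i : ℝ) * D) =
        P * (u + ((k + 1 : ℕ) : ℝ) * D) * u := by
      rw [prod_range_succ', prod_range_succ]
      simp [hP]
    have h1 : (u + ((k + 1 : ℕ) : ℝ) * D) ≠ 0 := (hpos (k + 1)).ne'
    show rr D k (u + D) - rr D k u = _
    rw [ih (u + D) (by linarith), ih u hu, e1, e2, e3, Nat.factorial_succ]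
    field_simp
    push_cast
    ring

theorem abs_rr_le (D : ℝ) (hD : 0 ≤ D) (k : ℕ) (u : ℝ) (hu : 0 < u) :
    |rr D k u| ≤ (k.factorial : ℝ) * D ^ k / u ^ (k + 1) := by
  rw [rr_eq D hD k u hu]
  have h1 : u ^ (k + 1) ≤ ∏ i ∈ range (k + 1), (u + (i : ℝ) * D) := by
    calc u ^ (k + 1) = ∏ _i ∈ range (k + 1), u := by rw [prod_const, card_range]
      _ ≤ _ := prod_le_prod (fun _ _ => hu.le) (fun i _ => by
        have : (0 : ℝ) ≤ i * D := by positivity
        linarith)
  have h2 : 0 < u ^ (k + 1) := by positivity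
  have h3 : 0 < ∏ i ∈ range (k + 1), (u + (i : ℝ) * D) := lt_of_lt_of_le h2 h1
  rw [abs_div, abs_mul, abs_mul, abs_pow, abs_neg, abs_one, one_pow, one_mul,
    abs_of_nonneg (by positivity : (0 : ℝ) ≤ (k.factorial : ℝ)),
    abs_of_nonneg (by positivity : (0 : ℝ) ≤ D ^ k), abs_of_pos h3]
  exact div_le_div_of_nonneg_left (by positivity) h2 h1

theorem abs_g_le (D : ℝ) (hD : 0 ≤ D) (k : ℕ) (u : ℝ) (hu : 0 < u) :
    |g D (k + 1) u| ≤ (k.factorial : ℝ) * (D / u) ^ (k + 1) := by
  have h := Convex.norm_image_sub_le_of_norm_hasDerivWithin_le (f := g D k) (f' := rr D k)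
    (C := (k.factorial : ℝ) * D ^ k / u ^ (k + 1)) (s := Set.Ici u) (x := u) (y := u + D)
    (fun x hx => (hasDerivAt_g D hD k x (lt_of_lt_of_le hu hx)).hasDerivWithinAt)
    (fun x hx => by
      rw [Real.norm_eq_abs]
      refine (abs_rr_le D hD k x (lt_of_lt_of_le hu hx)).trans ?_
      exact div_le_div_of_nonneg_left (by positivity) (by positivity)
        (pow_le_pow_left₀ hu.le hx _)) (convex_Ici u) Set.self_mem_Ici (by
      show u ≤ u + D
      linarith)
  have e : g D (k + 1) u = g D k (u + D) - g D k u := rfl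
  rw [e]
  rw [Real.norm_eq_abs, Real.norm_eq_abs, add_sub_cancel_left, abs_of_nonneg hD] at h
  refine h.trans (le_of_eq ?_)
  rw [div_pow]
  ring

end Pool.Agent.W5h75.SR
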