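import Mathlib
import Pool.Agent.W5h75.SR.Diff

/-!
Paths of windows: iterated ratios.
-/

set_option autoImplicit false

open Finset

namespace Pool.Agent.W5h75.SR

/-- the iterated ratio `exp (g D j (u + i D))` -/
noncomputable def φ (D u : ℝ) (j i : ℕ) : ℝ := Real.exp (g D j (u + i * D))

theorem φ_pos (D u : ℝ) (j i : ℕ) : 0 < φ D u j i := Real.exp_pos _

theorem φ_succ (D u : ℝ) (j i : ℕ) : φ D u (j + 1) i = φ D u j (i + 1) / φ D u j i := by
  have e : g D (j + 1) (u + i * D) = g D j (u + i * D + D) - g D j (u + i * D) := rfl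
  unfold φ
  rw [e, Real.exp_sub]
  congr 3
  push_cast
  ring

/-- the intermediate windows -/
noncomputable def T (D u : ℝ) : ℕ → ℕ → List ℝ
  | 0, _ => []
  | n + 1, i => (1 / φ D u (n + 1) i) ::
      ((T D u n i ++ T D u n (i + 1)).map fun τ => τ / φ D u (n + 1) i)

theorem length_T (D u : ℝ) : ∀ n i : ℕ, (T D u n i).length + 1 = 2 ^ n := by
  intro n
  induction n with
  | zero => intro i; simp [T]
  | succ n ih =>
    intro i
    have h1 := ih i
    have h2 := ih (i + 1)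
    simp only [T, List.length_cons, List.length_map, List.length_append]
    rw [pow_succ]
    omega

theorem T_mem (D u β : ℝ) (J : ℕ) (hβ : ∀ j i : ℕ, j < J → |g D (j + 1) (u + i * D)| ≤ β) :
    ∀ n : ℕ, n ≤ J → ∀ (i : ℕ) (τ : ℝ), τ ∈ T D u n i → ∃ s : ℝ, τ = Real.exp s ∧ |s| ≤ n * β := by
  intro n
  induction n with
  | zero => intro _ i τ hτ; simp [T] at hτ
  | succ n ih =>
    intro hn i τ hτ
    have hb := hβ n i (by omega)
    have hβ0 : 0 ≤ β := (abs_nonneg _).trans hb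
    have hcase : ∀ τ' : ℝ, (∃ s : ℝ, τ' = Real.exp s ∧ |s| ≤ n * β) →
        ∃ s : ℝ, τ' / φ D u (n + 1) i = Real.exp s ∧ |s| ≤ ((n + 1 : ℕ) : ℝ) * β := by
      rintro τ' ⟨s, h1, h2⟩
      refine ⟨s - g D (n + 1) (u + i * D), ?_, ?_⟩
      · rw [Real.exp_sub, h1]; rfl
      · refine (abs_sub _ _).trans ?_
        push_cast
        linarith
    simp only [T, List.mem_cons, List.mem_map, List.mem_append] at hτ
    rcases hτ with rfl | ⟨τ', h | h, rfl⟩
    · exact hcase 1 ⟨0, by simp, by rw [abs_zero]; positivity⟩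
    · exact hcase τ' (ih (by omega) i τ' h)
    · exact hcase τ' (ih (by omega) (i + 1) τ' h)

theorem pascal (n : ℕ) (f : ℕ → ZMod 2) :
    ∑ l ∈ range (n + 2), (Nat.choose (n + 1) l : ZMod 2) * f l +
      ∑ l ∈ range (n + 2), (Nat.choose (n + 1) l : ZMod 2) * f (l + 1) =
    ∑ l ∈ range (n + 3), (Nat.choose (n + 2) l : ZMod 2) * f l := by
  have h1 : ∑ l ∈ range (n + 3), (Nat.choose (n + 1) l : ZMod 2) * f l =
      ∑ l ∈ range (n + 2), (Nat.choose (n + 1) l : ZMod 2) * f l := by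
    rw [sum_range_succ, Nat.choose_succ_self]
    simp
  rw [← h1, sum_range_succ', sum_range_succ' _ (n + 2), add_right_comm, ← sum_add_distrib]
  congr 1
  refine sum_congr rfl fun l _ => ?_
  rw [Nat.choose_succ_succ (n + 1) l]
  push_cast
  ring

theorem path (cst : ℝ → ZMod 2 → Prop) (ρ : ℕ → ZMod 2) (D u : ℝ) (N : ℕ)
    (h : ∀ (x : ℝ) (c c' : ZMod 2) (i : ℕ), i ≤ N → cst x c → cst (x * φ D u 1 i) c' →
      c + c' = ρ i + ρ (i + 1)) :
    ∀ (n i : ℕ) (x : ℝ) (c c' : ZMod 2), i + n ≤ N → (∀ τ ∈ T D u n i, ∃ d, cst (x * τ) d) →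
      cst x c → cst (x * φ D u (n + 1) i) c' →
      c + c' = ∑ l ∈ range (n + 2), (Nat.choose (n + 1) l : ZMod 2) * ρ (i + l) := by
  intro n
  induction n with
  | zero =>
    intro i x c c' hi _ h1 h2
    rw [h x c c' i (by omega) h1 h2]
    simp [sum_range_succ]
  | succ n ih =>
    intro i x c c' hi hT h1 h2
    have hφ := φ_pos D u (n + 1) i
    have hφ' := φ_pos D u (n + 1) (i + 1)
    obtain ⟨d, hd⟩ := hT (1 / φ D u (n + 1) i) (by simp [T])
    have k1 := ih i (x * (1 / φ D u (n + 1) i)) d c (by omega) (fun τ hτ => by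
      obtain ⟨d', hd'⟩ := hT (τ / φ D u (n + 1) i) (by
        simp only [T, List.mem_cons, List.mem_map, List.mem_append]
        exact Or.inr ⟨τ, Or.inl hτ, rfl⟩)
      refine ⟨d', ?_⟩
      have e : x * (1 / φ D u (n + 1) i) * τ = x * (τ / φ D u (n + 1) i) := by ring
      rw [e]; exact hd') hd (by
      have e : x * (1 / φ D u (n + 1) i) * φ D u (n + 1) i = x := by field_simp
      rw [e]; exact h1)
    have k2 := ih (i + 1) (x * (1 / φ D u (n + 1) i)) d c' (by omega) (fun τ hτ => by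
      obtain ⟨d', hd'⟩ := hT (τ / φ D u (n + 1) i) (by
        simp only [T, List.mem_cons, List.mem_map, List.mem_append]
        exact Or.inr ⟨τ, Or.inr hτ, rfl⟩)
      refine ⟨d', ?_⟩
      have e : x * (1 / φ D u (n + 1) i) * τ = x * (τ / φ D u (n + 1) i) := by ring
      rw [e]; exact hd') hd (by
      have e : x * (1 / φ D u (n + 1) i) * φ D u (n + 1) (i + 1) = x * φ D u (n + 1 + 1) i := by
        rw [φ_succ D u (n + 1) i]; field_simp
      rw [e]; exact h2)
    have e1 : ∑ l ∈ range (n + 2), (Nat.choose (n + 1) l : ZMod 2) * ρ (i + 1 + l) =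
        ∑ l ∈ range (n + 2), (Nat.choose (n + 1) l : ZMod 2) * ρ (i + (l + 1)) := by
      refine sum_congr rfl fun l _ => ?_
      congr 2
      ring
    rw [← pascal n (fun l => ρ (i + l)), ← k1, ← e1, ← k2]
    have hz : ∀ s p q : ZMod 2, p + q = s + p + (s + q) := by decide
    exact hz _ _ _

theorem sum_two_pow (j : ℕ) (ρ : ℕ → ZMod 2) :
    ∑ l ∈ range (2 ^ j + 1), (Nat.choose (2 ^ j) l : ZMod 2) * ρ l = ρ 0 + ρ (2 ^ j) := by
  have hj : 0 < 2 ^ j := by positivity
  rw [sum_range_succ, ← Nat.sub_add_cancel hj, sum_range_succ', Nat.sub_add_cancel hj]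
  rw [sum_eq_zero, zero_add]
  · simp
  · intro l hl
    rw [mem_range] at hl
    have h1 : 2 ∣ (2 ^ j).choose (l + 1) := Nat.prime_two.dvd_choose_pow (by omega) (by omega)
    have h2 : (((2 ^ j).choose (l + 1) : ℕ) : ZMod 2) = 0 := (ZMod.natCast_eq_zero_iff _ _).2 h1
    rw [h2, zero_mul]

end Pool.Agent.W5h75.SR
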