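import Mathlib
import Pool.Agent.W5h75.SR.Link1
import Pool.Agent.W5h75.SR.Path
import Pool.Agent.W5h75.SR.Count

/-!
Equality of the signs at the ends of a progression of rough numbers.
-/

set_option autoImplicit false

open Finset

namespace Pool.Agent.W5h75.SR

open Pool.Agent.H661R3.OP
open Pool.Agent.W5h75.SP (SVK rough_mul rough_ne_zero)

theorem cst_floor {ι : Type} (a b : ι → ℤ) (o : ι) (F : ℤ → ZMod 2) (W : ℕ) (n₀ : ℤ) (Y : ℕ)
    (Z : ℤ) (E : ℕ) (x : ℝ) (c : ZMod 2) (h : Cst a b o F W n₀ Y Z E (⌊x⌋ : ℤ) c) :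
    Cst a b o F W n₀ Y Z E x c := by
  refine (Set.ncard_le_ncard ?_ (ex_finite _ _ _ _ _ _ _ _ _ _)).trans h
  rintro n ⟨h1, h2, h3, h4, h8⟩
  refine ⟨?_, ?_, h3, h4, h8⟩
  · exact_mod_cast lt_of_le_of_lt (Int.floor_le x) h1
  · have h5 : ((n - Z : ℤ) : ℝ) ≤ x := by push_cast; linarith
    have h6 : n - Z ≤ ⌊x⌋ := Int.le_floor.2 h5
    have h7 : n ≤ ⌊x⌋ + Z := by linarith
    exact_mod_cast h7

theorem rel {ι : Type} [Fintype ι] (a b : ι → ℤ) (o : ι) (W : ℕ) (n₀ : ℤ) (K C : ℕ)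
    (hSV : SVK K C) (hK : 2 * Fintype.card ι ≤ K) (hW : 0 < W)
    (hWp : ∀ p : ℕ, p.Prime → p ≤ 2 * K → p ∣ W)
    (hWa : ∀ i, ∀ p : ℕ, p.Prime → (p : ℤ) ∣ a i → p ∣ W) (Y : ℕ) (hY : 2 ≤ Y)
    (hao : 0 < a o)
    (hn₀ : ∀ i, ∀ p : ℕ, p.Prime → p ∣ W → ¬ (p : ℤ) ∣ a i * n₀ + b i)
    (F : ℤ → ZMod 2) (hF : Add2 F) (Z : ℤ) (E : ℕ) (M : ℕ) (B : Finset ℤ)
    (hB : ∀ N : ℤ, 3 * M ≤ N → N ≤ 6 * M → N ∉ B → ∃ c, Cst a b o F W n₀ Y Z E N c)
    (j n : ℕ) (hn : n + 1 = 2 ^ j) (hcount : 2 * (2 ^ n + 1) * B.card < M)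
    (u D v w : ℤ) (hu : 0 < u) (hD : 0 ≤ D) (hv : u = 1 + a o * W * v) (hw : D = a o * W * w)
    (hr : ∀ i : ℕ, i ≤ n + 1 → Rough Y (u + i * D))
    (hratio : (n + 1) * ((n + 1).factorial * ((D : ℝ) / u)) ≤ 1 / 20)
    (hlen : (|(b o : ℝ)| + (Y : ℝ) ^ C * (2 * E + 1)) * ((u + (n + 1) * D) * W) ≤ Z)
    (hend : (10 * M * (n.factorial * ((D : ℝ) / u) ^ (n + 1)) + |(b o : ℝ)| + (Y : ℝ) ^ C * (2 * E + 1)) * W ≤ Z) :
    F u = F (u + (n + 1 : ℕ) * D) := by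
  have hWr : (1 : ℝ) ≤ W := by exact_mod_cast hW
  have hDr : (0 : ℝ) ≤ D := by exact_mod_cast hD
  have hur : (1 : ℝ) ≤ u := by exact_mod_cast hu
  have hu0 : (0 : ℝ) < u := by linarith
  have hq0 : (0 : ℝ) ≤ (D : ℝ) / u := by positivity
  have hn1 : (1 : ℝ) ≤ (n : ℝ) + 1 := by
    have : (0 : ℝ) ≤ n := Nat.cast_nonneg n
    linarith
  have hfac : (1 : ℝ) ≤ ((n + 1).factorial : ℝ) := by
    exact_mod_cast Nat.succ_le_of_lt (Nat.factorial_pos _)
  have hq1 : (D : ℝ) / u ≤ 1 := by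
    have h1 : (D : ℝ) / u ≤ (n + 1).factorial * ((D : ℝ) / u) := by nlinarith
    have h2 : (n + 1).factorial * ((D : ℝ) / u) ≤
      (n + 1) * ((n + 1).factorial * ((D : ℝ) / u)) := by
      have : 0 ≤ (n + 1).factorial * ((D : ℝ) / u) := by positivity
      nlinarith
    linarith
  set β : ℝ := (n + 1).factorial * ((D : ℝ) / u) with hβ
  have hβ0 : 0 ≤ β := by positivity
  have hupos : ∀ i : ℕ, (u : ℝ) ≤ (u : ℝ) + i * D := by
    intro i
    have : (0 : ℝ) ≤ (i : ℝ) * D := by positivity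
    linarith
  have hgβ : ∀ l i : ℕ, l < n + 1 → |g D (l + 1) ((u : ℝ) + i * D)| ≤ β := by
    intro l i hl
    refine (abs_g_le D hDr l _ (by have := hupos i; linarith)).trans ?_
    rw [hβ]
    have h1 : (l.factorial : ℝ) ≤ ((n + 1).factorial : ℝ) := by
      exact_mod_cast Nat.factorial_le (by omega)
    have h2 : (D : ℝ) / ((u : ℝ) + i * D) ≤ D / u :=
      div_le_div_of_nonneg_left hDr hu0 (hupos i)
    have h3 : 0 ≤ (D : ℝ) / ((u : ℝ) + i * D) := by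
      have := hupos i
      have : 0 < (u : ℝ) + i * D := by linarith
      positivity
    have h4 : ((D : ℝ) / ((u : ℝ) + i * D)) ^ (l + 1) ≤ D / u := by
      calc ((D : ℝ) / ((u : ℝ) + i * D)) ^ (l + 1) ≤ (D / u) ^ (l + 1) := pow_le_pow_left₀ h3 h2 _
        _ ≤ (D / u) ^ 1 := pow_le_pow_of_le_one hq0 hq1 (by omega)
        _ = D / u := pow_one _
    exact mul_le_mul h1 h4 (pow_nonneg h3 _) (by positivity)
  -- the first ratio
  have hφ1 : ∀ i : ℕ, φ D u 1 i = ((u : ℝ) + ((i + 1 : ℕ) : ℝ) * D) / ((u : ℝ) + i * D) := by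
    intro i
    have k1 : 0 < (u : ℝ) + i * D := by have := hupos i; linarith
    have k2 : 0 < (u : ℝ) + ((i + 1 : ℕ) : ℝ) * D := by have := hupos (i + 1); linarith
    have e : g D 1 ((u : ℝ) + i * D) = Real.log ((u : ℝ) + i * D + D) - Real.log ((u : ℝ) + i * D) :=
      rfl
    unfold φ
    rw [e]
    have e2 : (u : ℝ) + i * D + D = (u : ℝ) + ((i + 1 : ℕ) : ℝ) * D := by push_cast; ring
    rw [e2, ← Real.log_div k2.ne' k1.ne', Real.exp_log (by positivity)]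
  set ρ : ℕ → ZMod 2 := fun i => F (u + i * D) with hρ
  have hP1 : ∀ (x : ℝ) (c c' : ZMod 2) (i : ℕ), i ≤ n → Cst a b o F W n₀ Y Z E x c →
      Cst a b o F W n₀ Y Z E (x * φ D u 1 i) c' → c + c' = ρ i + ρ (i + 1) := by
    intro x c c' i hi h1 h2
    have hDi : (i : ℤ) ≤ n := by exact_mod_cast hi
    have g1 : 0 < u + (i : ℤ) * D := by positivity
    have g2 : 0 < u + ((i + 1 : ℕ) : ℤ) * D := by positivity
    have c1 : ((u + (i : ℤ) * D : ℤ) : ℝ) = (u : ℝ) + i * D := by push_cast; ring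
    have c2 : ((u + ((i + 1 : ℕ) : ℤ) * D : ℤ) : ℝ) = (u : ℝ) + ((i + 1 : ℕ) : ℝ) * D := by
      push_cast; ring
    have k1 : 0 < (u : ℝ) + i * D := by have := hupos i; linarith
    have k2 : 0 < (u : ℝ) + ((i + 1 : ℕ) : ℝ) * D := by have := hupos (i + 1); linarith
    have k3 : (u : ℝ) + i * D ≤ u + (n + 1) * D := by
      have : (i : ℝ) ≤ n := by exact_mod_cast hi
      nlinarith
    have k4 : (u : ℝ) + ((i + 1 : ℕ) : ℝ) * D ≤ u + (n + 1) * D := by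
      have : (i : ℝ) ≤ n := by exact_mod_cast hi
      push_cast
      nlinarith
    have hzero : x / ((u + (i : ℤ) * D : ℤ) * W) -
        (x * φ D u 1 i) / ((u + ((i + 1 : ℕ) : ℤ) * D : ℤ) * W) = 0 := by
      rw [hφ1, c1, c2]
      field_simp
      ring
    have hbY : 0 ≤ |(b o : ℝ)| + (Y : ℝ) ^ C * (2 * E + 1) := by positivity
    exact link a b o W n₀ K C hSV hK hW hWp hWa Y hY hao hn₀ F hF Z E x (x * φ D u 1 i) c c' h1 h2
      (u + (i : ℤ) * D) (u + ((i + 1 : ℕ) : ℤ) * D) (v + i * w) (v + ((i + 1 : ℕ) : ℤ) * w) g1 g2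
      (hr i (by omega)) (hr (i + 1) (by omega)) (by rw [hv, hw]; ring) (by rw [hv, hw]; ring)
      (by
        rw [hzero, abs_zero, zero_add, c1]
        refine le_trans ?_ hlen
        exact mul_le_mul_of_nonneg_left (mul_le_mul_of_nonneg_right k3 (by linarith)) hbY)
      (by
        rw [hzero, abs_zero, zero_add, c2]
        refine le_trans ?_ hlen
        exact mul_le_mul_of_nonneg_left (mul_le_mul_of_nonneg_right k4 (by linarith)) hbY)
  -- the list of the windows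
  set L : List ℝ := 1 :: φ D u (n + 1) 0 :: T D u n 0 with hL
  have hexp : ∀ s : ℝ, |s| ≤ 1 / 20 → 9 / 10 ≤ Real.exp s ∧ Real.exp s ≤ 11 / 10 := by
    intro s hs
    have h1 := Real.abs_exp_sub_one_le (x := s) (by linarith)
    obtain ⟨h2, h3⟩ := abs_le.1 h1
    constructor <;> linarith
  have hLall : ∀ τ ∈ L, 9 / 10 ≤ τ ∧ τ ≤ 11 / 10 := by
    intro τ hτ
    simp only [hL, List.mem_cons] at hτ
    rcases hτ with rfl | rfl | hτ
    · norm_num
    · refine hexp _ ?_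
      have h1 := hgβ n 0 (by omega)
      have h2 : β ≤ (n + 1) * β := by nlinarith
      exact h1.trans (h2.trans hratio)
    · obtain ⟨s, h1, h2⟩ := T_mem D u β (n + 1) hgβ n (by omega) 0 τ hτ
      rw [h1]
      refine hexp s ?_
      have h3 : (n : ℝ) * β ≤ (n + 1) * β := by nlinarith
      linarith
  have hLlen : L.length = 2 ^ n + 1 := by
    have := length_T D u n 0
    simp only [hL, List.length_cons]
    omega
  obtain ⟨x, hx1, hx2, hx3⟩ := exists_good M L (fun τ hτ => (hLall τ hτ).1) B (by rw [hLlen]; exact hcount)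
  have hx1r : 4 * (M : ℝ) ≤ x := by exact_mod_cast hx1
  have hx2r : (x : ℝ) < 5 * M := by exact_mod_cast hx2
  have hM0 : (0 : ℝ) ≤ M := Nat.cast_nonneg M
  have hgood : ∀ τ ∈ L, ∃ c, Cst a b o F W n₀ Y Z E ((x : ℝ) * τ) c := by
    intro τ hτ
    obtain ⟨t1, t2⟩ := hLall τ hτ
    obtain ⟨c, hc⟩ := hB ⌊(x : ℝ) * τ⌋ (by
      rw [Int.le_floor]
      push_cast
      nlinarith) (by
      have h1 : ((⌊(x : ℝ) * τ⌋ : ℤ) : ℝ) ≤ ((6 * M : ℤ) : ℝ) := by
        refine (Int.floor_le _).trans ?_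
        push_cast
        nlinarith
      exact_mod_cast h1) (hx3 τ hτ)
    exact ⟨c, cst_floor a b o F W n₀ Y Z E _ c hc⟩
  obtain ⟨c, hc⟩ := hgood 1 (by simp [hL])
  rw [mul_one] at hc
  obtain ⟨c', hc'⟩ := hgood (φ D u (n + 1) 0) (by simp [hL])
  have hpath := path (Cst a b o F W n₀ Y Z E) ρ D u n hP1 n 0 x c c' (by omega)
    (fun τ hτ => hgood τ (by simp [hL, hτ])) hc hc'
  simp only [zero_add] at hpath
  have hsum : c + c' = ρ 0 + ρ (n + 1) := by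
    rw [hpath, show n + 2 = 2 ^ j + 1 by omega, hn]
    exact sum_two_pow j ρ
  -- the last comparison
  have hxy : |(x : ℝ) - x * φ D u (n + 1) 0| ≤ 10 * M * (n.factorial * ((D : ℝ) / u) ^ (n + 1)) := by
    have h1 : |g D (n + 1) ((u : ℝ) + (0 : ℕ) * D)| ≤ n.factorial * ((D : ℝ) / u) ^ (n + 1) := by
      have := abs_g_le D hDr n u hu0
      simpa using this
    have h2 := hgβ n 0 (by omega)
    have h3 : β ≤ (n + 1) * β := by nlinarith
    have h4 := Real.abs_exp_sub_one_le (x := g D (n + 1) ((u : ℝ) + (0 : ℕ) * D))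
      ((h2.trans (h3.trans hratio)).trans (by norm_num))
    have h6 : |Real.exp (g D (n + 1) ((u : ℝ) + (0 : ℕ) * D)) - 1| ≤
        2 * (n.factorial * ((D : ℝ) / u) ^ (n + 1)) :=
      h4.trans (mul_le_mul_of_nonneg_left h1 (by norm_num))
    have h5 : (x : ℝ) - x * φ D u (n + 1) 0 = -(x * (Real.exp (g D (n + 1) ((u : ℝ) + (0 : ℕ) * D)) - 1)) := by
      unfold φ; ring
    rw [h5, abs_neg, abs_mul, abs_of_nonneg (by linarith : (0 : ℝ) ≤ x)]
    calc (x : ℝ) * |Real.exp (g D (n + 1) ((u : ℝ) + (0 : ℕ) * D)) - 1|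
        ≤ (5 * M) * (2 * (n.factorial * ((D : ℝ) / u) ^ (n + 1))) :=
          mul_le_mul hx2r.le h6 (abs_nonneg _) (by linarith)
      _ = _ := by ring
  have hrough1 : Rough Y 1 := by
    intro p hp _ hd
    have h1 : p ∣ 1 := Int.natCast_dvd_natCast.1 (by simpa using hd)
    exact hp.one_lt.ne' (Nat.dvd_one.1 h1)
  have hfin : (|(x : ℝ) / (((1 : ℤ) : ℝ) * W) - x * φ D u (n + 1) 0 / (((1 : ℤ) : ℝ) * W)| +
      |(b o : ℝ)| + (Y : ℝ) ^ C * (2 * E + 1)) * (((1 : ℤ) : ℝ) * W) ≤ Z := by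
    rw [Int.cast_one, one_mul, ← sub_div, abs_div, abs_of_pos (by linarith : (0 : ℝ) < W)]
    refine le_trans ?_ hend
    refine mul_le_mul_of_nonneg_right ?_ (by linarith)
    have h1 : |(x : ℝ) - x * φ D u (n + 1) 0| / W ≤ |(x : ℝ) - x * φ D u (n + 1) 0| :=
      div_le_self (abs_nonneg _) hWr
    linarith
  have hl := link a b o W n₀ K C hSV hK hW hWp hWa Y hY hao hn₀ F hF Z E x (x * φ D u (n + 1) 0) c c'
    hc hc' 1 1 0 0 one_pos one_pos hrough1 hrough1 (by ring) (by ring) hfin hfin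
  rw [hsum] at hl
  have hz : ∀ p q r : ZMod 2, p + q = r + r → p = q := by decide
  have h1 := hz _ _ _ hl
  simp only [hρ] at h1
  simpa using h1

end Pool.Agent.W5h75.SR
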