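import Mathlib
import Pool.Agent.W5h75.SR.Rel
import Pool.Agent.W5h75.SP.Main

/-!
The chain of comparisons.
-/

set_option autoImplicit false

open Finset

namespace Pool.Agent.W5h75.SR

open Pool.Agent.H661R3.OP
open Pool.Agent.W5h75.SP (SVK rough_mul rough_ne_zero rough_prime ex_one)

section

variable {ι : Type} [Fintype ι] (a b : ι → ℤ) (o : ι) (W : ℕ) (n₀ : ℤ) (K C : ℕ)
    (hSV : SVK K C) (hK : 2 * Fintype.card ι ≤ K) (hW : 0 < W)
    (hWp : ∀ p : ℕ, p.Prime → p ≤ 2 * K → p ∣ W)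
    (hWa : ∀ i, ∀ p : ℕ, p.Prime → (p : ℤ) ∣ a i → p ∣ W) (Y : ℕ) (hY : 2 ≤ Y)
    (hao : 0 < a o)
    (hn₀ : ∀ i, ∀ p : ℕ, p.Prime → p ∣ W → ¬ (p : ℤ) ∣ a i * n₀ + b i)
    (F : ℤ → ZMod 2) (hF : Add2 F) (Z : ℤ) (E : ℕ) (M : ℕ) (B : Finset ℤ)
    (hB : ∀ N : ℤ, 3 * M ≤ N → N ≤ 6 * M → N ∉ B → ∃ c, Cst a b o F W n₀ Y Z E N c)
    (j n : ℕ) (hn : n + 1 = 2 ^ j) (hnK : 2 * (n + 1) ≤ K)
    (hcount : 2 * (2 ^ n + 1) * B.card < M)

include hSV hK hW hWp hWa hY hao hn₀ hF hB hn hnK hcount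

theorem step (A A' : ℤ) (hA : 0 < A)
    (c1 : (n + 1) * ((n + 1).factorial * ((3 * (a o * W) * (Y : ℝ) ^ C) / A)) ≤ 1 / 20)
    (c2 : (|(b o : ℝ)| + (Y : ℝ) ^ C * (2 * E + 1)) * ((A' + (n + 1) * (3 * (a o * W) * (Y : ℝ) ^ C)) * W) ≤ Z)
    (c3 : (10 * M * (n.factorial * ((3 * (a o * W) * (Y : ℝ) ^ C) / A) ^ (n + 1)) +
      |(b o : ℝ)| + (Y : ℝ) ^ C * (2 * E + 1)) * W ≤ Z)
    (v v' : ℤ) (hvv : v ≤ v') (hd : v' - v ≤ 2 * (Y ^ C : ℕ))
    (hAv : A ≤ 1 + (n + 1 : ℕ) * (a o * W) * v) (hA'v : 1 + (n + 1 : ℕ) * (a o * W) * v' ≤ A')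
    (hr : Rough Y (1 + (n + 1 : ℕ) * (a o * W) * v))
    (hr' : Rough Y (1 + (n + 1 : ℕ) * (a o * W) * v')) :
    F (1 + (n + 1 : ℕ) * (a o * W) * v) = F (1 + (n + 1 : ℕ) * (a o * W) * v') := by
  classical
  have hWz : (0 : ℤ) < W := by exact_mod_cast hW
  set Q : ℤ := a o * W with hQdef
  have hQ : 0 < Q := mul_pos hao hWz
  have hQr : (a o : ℝ) * W = (Q : ℝ) := by rw [hQdef]; push_cast; ring
  rw [hQr] at c1 c2 c3
  set V : ℤ := 1 + (n + 1 : ℕ) * Q * v with hV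
  set V' : ℤ := 1 + (n + 1 : ℕ) * Q * v' with hV'
  have hWr : (1 : ℝ) ≤ W := by exact_mod_cast hW
  have hAr : (0 : ℝ) < A := by exact_mod_cast hA
  have hQr0 : (0 : ℝ) < Q := by exact_mod_cast hQ
  have hYC0 : (0 : ℝ) ≤ (Y : ℝ) ^ C := by positivity
  have hn1 : (0 : ℝ) ≤ (n : ℝ) := Nat.cast_nonneg n
  have hVV : V ≤ V' := by
    have : 0 ≤ ((n + 1 : ℕ) : ℤ) * Q := by positivity
    have := mul_le_mul_of_nonneg_left hvv this
    linarith
  -- `p` divides `(i + 1) Q` implies that `p` divides `Q`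
  have hpQ : ∀ p : ℕ, p.Prime → ∀ i : ℕ, i < n + 1 → (p : ℤ) ∣ ((i : ℤ) + 1) * Q →
      (p : ℤ) ∣ Q := by
    intro p hp i hi h
    rcases Int.Prime.dvd_mul' hp h with h | h
    · have h1 : p ∣ i + 1 := by exact_mod_cast h
      have h2 : p ≤ i + 1 := Nat.le_of_dvd (by omega) h1
      have h3 : p ∣ W := hWp p hp (by omega)
      exact (Int.natCast_dvd_natCast.2 h3).mul_left _
    · exact h
  have hnV : ∀ p : ℕ, p.Prime → (p : ℤ) ∣ Q → ∀ z : ℤ, ¬ (p : ℤ) ∣ 1 + Q * z := by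
    intro p hp h z hd
    have h1 : (p : ℤ) ∣ 1 := by
      have := dvd_sub hd (h.mul_right z)
      simpa using this
    have h2 : p ∣ 1 := Int.natCast_dvd_natCast.1 (by simpa using h1)
    exact hp.one_lt.ne' (Nat.dvd_one.1 h2)
  -- the sieve
  have hsv := hSV (Fin (n + 1) × Bool) (by
      rw [Fintype.card_prod, Fintype.card_bool, Fintype.card_fin]; omega)
    (fun x => ((x.1 : ℕ) + 1 : ℤ) * Q)
    (fun x => if x.2 then V' else V + ((x.1 : ℕ) + 1 : ℤ) * Q * (v' - v)) Y hY (by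
      rintro ⟨⟨i, hi⟩, β⟩ p hp hpY hd hd'
      simp only at hd hd'
      have h1 := hpQ p hp i hi hd
      cases β
      · refine hnV p hp h1 ((n + 1 : ℕ) * v + ((i : ℤ) + 1) * (v' - v)) ?_
        have : 1 + Q * ((n + 1 : ℕ) * v + ((i : ℤ) + 1) * (v' - v)) =
            V + ((i : ℤ) + 1) * Q * (v' - v) := by rw [hV]; ring
        rw [this]
        simpa using hd'
      · refine hnV p hp h1 ((n + 1 : ℕ) * v') ?_
        have : 1 + Q * ((n + 1 : ℕ) * v') = V' := by rw [hV']; ring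
        rw [this]
        simpa using hd')
    (by
      rintro ⟨i, β⟩ p hp hpK
      exact (((Int.natCast_dvd_natCast.2 (hWp p hp hpK)).mul_left _)).mul_left _)
    0 (Y ^ C) le_rfl
  have hpos : 0 < Y ^ C := by positivity
  have hne : {t : ℤ | 0 ≤ t ∧ t < 0 + (Y ^ C : ℕ) ∧ ∀ x : Fin (n + 1) × Bool,
      Rough Y (((x.1 : ℕ) + 1 : ℤ) * Q * t +
        (if x.2 then V' else V + ((x.1 : ℕ) + 1 : ℤ) * Q * (v' - v)))}.Nonempty := by
    apply Set.nonempty_of_ncard_ne_zero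
    intro h0
    rw [h0] at hsv
    omega
  obtain ⟨e, he1, he2, he3⟩ := hne
  rw [zero_add] at he2
  have he2r : (e : ℝ) ≤ (Y : ℝ) ^ C := by
    have : (e : ℝ) ≤ ((Y ^ C : ℕ) : ℝ) := by exact_mod_cast he2.le
    push_cast at this
    exact this
  have he0r : (0 : ℝ) ≤ e := by exact_mod_cast he1
  have hdr : (v' : ℝ) - v ≤ 2 * (Y : ℝ) ^ C := by
    have : ((v' - v : ℤ) : ℝ) ≤ ((2 * (Y ^ C : ℕ) : ℤ) : ℝ) := by exact_mod_cast hd
    push_cast at this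
    exact this
  have hd0r : (0 : ℝ) ≤ (v' : ℝ) - v := by
    have : (v : ℝ) ≤ v' := by exact_mod_cast hvv
    linarith
  -- an auxiliary function
  have haux : ∀ (u D vv w : ℤ), A ≤ u → u ≤ A' → 0 ≤ D → u = 1 + a o * W * vv → D = a o * W * w →
      (D : ℝ) ≤ 3 * Q * (Y : ℝ) ^ C → (∀ i : ℕ, i ≤ n + 1 → Rough Y (u + i * D)) →
      F u = F (u + (n + 1 : ℕ) * D) := by
    intro u D vv w h1 h2 h3 h4 h5 h6 h7
    have hu1 : (A : ℝ) ≤ u := by exact_mod_cast h1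
    have hu2 : (u : ℝ) ≤ A' := by exact_mod_cast h2
    have hD0 : (0 : ℝ) ≤ D := by exact_mod_cast h3
    have hu0 : (0 : ℝ) < u := by linarith
    have hq : (D : ℝ) / u ≤ (3 * Q * (Y : ℝ) ^ C) / A :=
      div_le_div₀ (by positivity) h6 hAr hu1
    have hq0 : 0 ≤ (D : ℝ) / u := by positivity
    refine rel a b o W n₀ K C hSV hK hW hWp hWa Y hY hao hn₀ F hF Z E M B hB j n hn hcount u D vv w
      (by linarith) h3 h4 h5 h7 ?_ ?_ ?_
    · refine le_trans ?_ c1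
      gcongr
    · refine le_trans ?_ c2
      gcongr
    · refine le_trans ?_ c3
      gcongr
  have k1 := haux V (Q * (v' - v + e)) ((n + 1 : ℕ) * v) (v' - v + e) hAv (hVV.trans hA'v)
    (mul_nonneg hQ.le (by linarith)) (by rw [hV]; ring) rfl (by
      push_cast
      have : (Q : ℝ) * (v' - v + e) ≤ Q * (3 * (Y : ℝ) ^ C) :=
        mul_le_mul_of_nonneg_left (by linarith) hQr0.le
      linarith) (by
      intro i hi
      rcases Nat.eq_zero_or_pos i with rfl | hi0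
      · simpa using hr
      · have h1 := he3 (⟨i - 1, by omega⟩, false)
        have e1 : V + (i : ℤ) * (Q * (v' - v + e)) =
            (((i - 1 : ℕ) : ℤ) + 1) * Q * e + (V + (((i - 1 : ℕ) : ℤ) + 1) * Q * (v' - v)) := by
          rw [show (((i - 1 : ℕ) : ℤ) + 1) = i by omega]
          ring
        rw [e1]
        simpa using h1)
  have k2 := haux V' (Q * e) ((n + 1 : ℕ) * v') e (hAv.trans hVV) hA'v
    (mul_nonneg hQ.le he1) (by rw [hV']; ring) rfl (by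
      push_cast
      have : (Q : ℝ) * e ≤ Q * (3 * (Y : ℝ) ^ C) :=
        mul_le_mul_of_nonneg_left (by linarith) hQr0.le
      linarith) (by
      intro i hi
      rcases Nat.eq_zero_or_pos i with rfl | hi0
      · simpa using hr'
      · have h1 := he3 (⟨i - 1, by omega⟩, true)
        have e1 : V' + (i : ℤ) * (Q * e) = (((i - 1 : ℕ) : ℤ) + 1) * Q * e + V' := by
          rw [show (((i - 1 : ℕ) : ℤ) + 1) = i by omega]
          ring
        rw [e1]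
        simpa using h1)
  rw [k1, k2]
  congr 1
  rw [hV, hV']
  ring

theorem core (A : ℤ) (hA : 0 < A)
    (c1 : (n + 1) * ((n + 1).factorial * ((3 * (a o * W) * (Y : ℝ) ^ C) / A)) ≤ 1 / 20)
    (c2 : (|(b o : ℝ)| + (Y : ℝ) ^ C * (2 * E + 1)) * (((Y : ℝ) ^ 2 *
      (1 + (n + 1) * (a o * W) * (A + (Y : ℝ) ^ C)) +
      (n + 1) * (3 * (a o * W) * (Y : ℝ) ^ C)) * W) ≤ Z)
    (c3 : (10 * M * (n.factorial * ((3 * (a o * W) * (Y : ℝ) ^ C) / A) ^ (n + 1)) +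
      |(b o : ℝ)| + (Y : ℝ) ^ C * (2 * E + 1)) * W ≤ Z)
    (p : ℕ) (hp : p.Prime) (hYp : Y < p) (hpY : p ≤ Y ^ 2)
    (hpQ : ((n + 1 : ℕ) * (a o * W)) ∣ (p : ℤ) - 1) : F p = 0 := by
  have hWz : (0 : ℤ) < W := by exact_mod_cast hW
  set Q : ℤ := (n + 1 : ℕ) * (a o * W) with hQdef
  have hQ : 0 < Q := mul_pos (by positivity) (mul_pos hao hWz)
  set A' : ℤ := (Y : ℤ) ^ 2 * (1 + Q * (A + (Y ^ C : ℕ))) with hA'
  have hM1 : (0 : ℤ) < (Y ^ C : ℕ) := by positivity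
  have hQp : ∀ p : ℕ, p.Prime → p ≤ 2 * K → (p : ℤ) ∣ Q := fun p hp hpK =>
    ((Int.natCast_dvd_natCast.2 (hWp p hp hpK)).mul_left _).mul_left _
  have c2' : (|(b o : ℝ)| + (Y : ℝ) ^ C * (2 * E + 1)) * ((A' + (n + 1) * (3 * (a o * W) * (Y : ℝ) ^ C)) * W) ≤
      Z := by
    refine le_of_eq_of_le ?_ c2
    rw [hA', hQdef]
    push_cast
    ring
  have hlink : ∀ v v' : ℤ, v ≤ v' → v' - v ≤ 2 * (Y ^ C : ℕ) → A ≤ 1 + Q * v →
      1 + Q * v' ≤ A' → Rough Y (1 + Q * v) → Rough Y (1 + Q * v') → F (1 + Q * v) = F (1 + Q * v') :=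
    fun v v' h1 h2 h3 h4 h5 h6 => step a b o W n₀ K C hSV hK hW hWp hWa Y hY hao hn₀ F hF Z E M B hB
      j n hn hnK hcount A A' hA c1 c2' c3 v v' h1 h2 h3 h4 h5 h6
  obtain ⟨v₀, k1, k2, k3⟩ := ex_one hSV (by omega) Q hQp Y hY A
  have hv0 : 0 < v₀ := by linarith
  have hV0 : A ≤ 1 + Q * v₀ := by nlinarith
  have hchain : ∀ N : ℕ, ∀ v : ℤ, v₀ ≤ v → v - v₀ ≤ N → Rough Y (1 + Q * v) →
      1 + Q * v ≤ A' → F (1 + Q * v₀) = F (1 + Q * v) := by
    intro N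
    induction N with
    | zero =>
      intro v h1 h2 _ _
      have : v = v₀ := by push_cast at h2; omega
      rw [this]
    | succ N ih =>
      intro v h1 h2 hr hVm
      by_cases hsmall : v - v₀ ≤ 2 * (Y ^ C : ℕ)
      · exact hlink v₀ v h1 hsmall hV0 hVm k3 hr
      · push Not at hsmall
        obtain ⟨v₁, q1, q2, q3⟩ := ex_one hSV (by omega) Q hQp Y hY (v - 2 * (Y ^ C : ℕ))
        have e1 : v₁ ≤ v := by linarith
        have e2 : Q * v₁ ≤ Q * v := mul_le_mul_of_nonneg_left e1 hQ.le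
        have e3 : Q * v₀ ≤ Q * v₁ := mul_le_mul_of_nonneg_left (by linarith) hQ.le
        rw [ih v₁ (by linarith) (by push_cast at h2; omega) q3 (by linarith)]
        exact hlink v₁ v e1 (by linarith) (by linarith) hVm q3 hr
  obtain ⟨w, hw⟩ := hpQ
  have hw' : (p : ℤ) = 1 + Q * w := by linarith
  have hYz : (2 : ℤ) ≤ Y := by exact_mod_cast hY
  have hp1 : (Y : ℤ) < p := by exact_mod_cast hYp
  have hp2 : (p : ℤ) ≤ (Y : ℤ) ^ 2 := by exact_mod_cast hpY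
  have hw0 : 0 ≤ w := by
    by_contra h
    push Not at h
    have : Q * w ≤ Q * (-1) := mul_le_mul_of_nonneg_left (by omega) hQ.le
    linarith
  set v₁ : ℤ := w + v₀ + Q * w * v₀ with hv₁
  have hv01 : v₀ ≤ v₁ := by
    have : 0 ≤ Q * w * v₀ := by positivity
    linarith
  have e1 : 1 + Q * v₁ = p * (1 + Q * v₀) := by rw [hv₁, hw']; ring
  have hle : 1 + Q * v₁ ≤ A' := by
    rw [e1, hA']
    have e2 : Q * v₀ ≤ Q * (A + (Y ^ C : ℕ)) := mul_le_mul_of_nonneg_left (by linarith) hQ.le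
    exact mul_le_mul hp2 (by linarith) (by positivity) (by positivity)
  have hr1 : Rough Y (1 + Q * v₁) := by
    rw [e1]
    exact rough_mul (rough_prime hp hYp) k3
  have hch := hchain (v₁ - v₀).toNat v₁ hv01 (by
      rw [Int.toNat_of_nonneg (by linarith)]) hr1 hle
  have hV0pos : (1 + Q * v₀) ≠ 0 := by linarith
  have hp0 : (p : ℤ) ≠ 0 := by
    have := hp.pos
    omega
  rw [e1, hF _ _ hp0 hV0pos] at hch
  have hz : ∀ x y : ZMod 2, x = y + x → y = 0 := by decide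
  exact hz _ _ hch

end

end Pool.Agent.W5h75.SR
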