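import Mathlib
import Pool.Agent.W5h75.SR.Chain
import Pool.Agent.W5h75.SQ.Long
import Pool.Agent.H661R3.OP.PAP
import Pool.Agent.H661R3.OP.Cor

/-!
Parity of the number of prime factors of one member of a rough tuple, in a positive proportion of
the very short intervals.
-/

set_option autoImplicit false

open Finset

namespace Pool.Agent.W5h75.SR

open Pool.Agent.H661R3.OP
open Pool.Agent.W5h75.SP (SVK exists_SVK)
open Pool.Agent.W5h75.SQ (Fpar add2_Fpar exists_W)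

/-- the three size conditions -/
theorem sizes (θ e γ η δ : ℝ) (n C W : ℕ) (Q bo : ℝ) (hθ : 0 < θ) (hθ1 : θ ≤ 1) (he : 0 < e)
    (heθ : e ≤ θ) (hη : η = e / 16) (hγ0 : 0 ≤ γ) (hγe : γ ≤ e / 8) (hγn : (n + 1) * γ = 1 - θ)
    (hδ : 0 < δ) (hδC : δ * C ≤ η / 8) (hδ2 : 2 * δ ≤ η / 8) (hQ : 1 ≤ Q) (hbo : 0 ≤ bo)
    (hW : (1 : ℝ) ≤ W) :
    ∀ᶠ y : ℝ in Filter.atTop, ∀ (Y A E Z : ℝ), 0 ≤ Y → Y ≤ y ^ δ → y ^ (γ + η) ≤ A →
      A ≤ 2 * y ^ (γ + η) → 0 ≤ E → E ≤ y ^ (θ - e / 2) → y ^ θ / 2 ≤ Z →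
      (n + 1) * ((n + 1).factorial * ((3 * Q * Y ^ C) / A)) ≤ 1 / 20 ∧
      (bo + Y ^ C * (2 * E + 1)) * ((Y ^ 2 * (1 + (n + 1) * Q * (A + Y ^ C)) +
        (n + 1) * (3 * Q * Y ^ C)) * W) ≤ Z ∧
      (10 * y * (n.factorial * ((3 * Q * Y ^ C) / A) ^ (n + 1)) + bo + Y ^ C * (2 * E + 1)) * W ≤
        Z := by
  have hη0 : 0 < η := by rw [hη]; linarith
  have hQ0 : 0 < Q := by linarith
  have l1 : ∀ᶠ y : ℝ in Filter.atTop, 60 * ((n + 1) * ((n + 1).factorial * Q)) ≤ y ^ (3 * η / 4) :=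
    (tendsto_rpow_atTop (by linarith)).eventually_ge_atTop _
  have l2 : ∀ᶠ y : ℝ in Filter.atTop,
      2 * ((bo + 3) * ((1 + 6 * (n + 1) * Q) * W)) ≤ y ^ η :=
    (tendsto_rpow_atTop hη0).eventually_ge_atTop _
  have l3 : ∀ᶠ y : ℝ in Filter.atTop,
      2 * ((10 * (n.factorial * (3 * Q) ^ (n + 1)) + bo + 3) * W) ≤ y ^ (3 * η / 4) :=
    (tendsto_rpow_atTop (by linarith)).eventually_ge_atTop _
  filter_upwards [l1, l2, l3, Filter.eventually_ge_atTop (1 : ℝ)] with y h1 h2 h3 hy1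
  intro Y A E Z hY0 hY hA hA2 hE0 hE hZ
  have hy0 : 0 < y := by linarith
  have hyp : ∀ u : ℝ, 0 < y ^ u := fun u => Real.rpow_pos_of_pos hy0 u
  have hmono : ∀ u v : ℝ, u ≤ v → y ^ u ≤ y ^ v := fun u v h =>
    Real.rpow_le_rpow_of_exponent_le hy1 h
  have hadd : ∀ u v : ℝ, y ^ u * y ^ v = y ^ (u + v) := fun u v => (Real.rpow_add hy0 u v).symm
  have hYC : Y ^ C ≤ y ^ (η / 4) := by
    calc Y ^ C ≤ (y ^ δ) ^ C := pow_le_pow_left₀ hY0 hY C
      _ = y ^ (δ * C) := by rw [← Real.rpow_natCast, ← Real.rpow_mul hy0.le]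
      _ ≤ y ^ (η / 4) := hmono _ _ (by linarith)
  have hY2 : Y ^ 2 ≤ y ^ (η / 4) := by
    calc Y ^ 2 ≤ (y ^ δ) ^ 2 := pow_le_pow_left₀ hY0 hY 2
      _ = y ^ (δ * 2) := by
        rw [← Real.rpow_natCast, ← Real.rpow_mul hy0.le]
        norm_num
      _ ≤ y ^ (η / 4) := hmono _ _ (by linarith)
  have hYC0 : 0 ≤ Y ^ C := pow_nonneg hY0 C
  have hA0 : 0 < A := lt_of_lt_of_le (hyp _) hA
  have hn0 : (0 : ℝ) ≤ n := Nat.cast_nonneg n
  -- the ratio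
  have hrat : (3 * Q * Y ^ C) / A ≤ 3 * Q * y ^ (-(γ + 3 * η / 4)) := by
    rw [div_le_iff₀ hA0]
    calc 3 * Q * Y ^ C ≤ 3 * Q * y ^ (η / 4) := mul_le_mul_of_nonneg_left hYC (by positivity)
      _ = 3 * Q * (y ^ (-(γ + 3 * η / 4)) * y ^ (γ + η)) := by
        rw [hadd]; congr 2; ring
      _ ≤ 3 * Q * (y ^ (-(γ + 3 * η / 4)) * A) := by
        have := mul_le_mul_of_nonneg_left hA (hyp (-(γ + 3 * η / 4))).le
        exact mul_le_mul_of_nonneg_left this (by positivity)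
      _ = 3 * Q * y ^ (-(γ + 3 * η / 4)) * A := by ring
  have hrat0 : 0 ≤ (3 * Q * Y ^ C) / A := by positivity
  -- the exceptional set
  have hEE : bo + Y ^ C * (2 * E + 1) ≤ (bo + 3) * y ^ (θ - e / 2 + η / 4) := by
    have g1 : 1 ≤ y ^ (θ - e / 2) := Real.one_le_rpow hy1 (by linarith)
    have g2 : 2 * E + 1 ≤ 3 * y ^ (θ - e / 2) := by linarith
    have g3 : Y ^ C * (2 * E + 1) ≤ y ^ (η / 4) * (3 * y ^ (θ - e / 2)) :=
      mul_le_mul hYC g2 (by linarith) (hyp _).le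
    have g4 : y ^ (η / 4) * (3 * y ^ (θ - e / 2)) = 3 * y ^ (θ - e / 2 + η / 4) := by
      rw [← hadd (θ - e / 2) (η / 4)]; ring
    have g5 : 1 ≤ y ^ (θ - e / 2 + η / 4) := Real.one_le_rpow hy1 (by linarith)
    have g6 : bo ≤ bo * y ^ (θ - e / 2 + η / 4) := by nlinarith
    linarith
  have hEE0 : 0 ≤ bo + Y ^ C * (2 * E + 1) := by positivity
  have hyη : e / 2 = 8 * η := by rw [hη]; ring
  have hγη : γ ≤ 2 * η := by rw [hη]; linarith
  refine ⟨?_, ?_, ?_⟩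
  · have g1 : (3 * Q * Y ^ C) / A ≤ 3 * Q * y ^ (-(3 * η / 4)) :=
      hrat.trans (mul_le_mul_of_nonneg_left (hmono _ _ (by linarith)) (by positivity))
    have g2 : (60 * ((n + 1) * ((n + 1).factorial * Q))) * y ^ (-(3 * η / 4)) ≤ 1 := by
      calc (60 * ((n + 1) * ((n + 1).factorial * Q))) * y ^ (-(3 * η / 4))
          ≤ y ^ (3 * η / 4) * y ^ (-(3 * η / 4)) := mul_le_mul_of_nonneg_right h1 (hyp _).le
        _ = 1 := by rw [hadd, add_neg_cancel, Real.rpow_zero]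
    have g3 : ((n : ℝ) + 1) * ((n + 1).factorial * ((3 * Q * Y ^ C) / A)) ≤
        (n + 1) * ((n + 1).factorial * (3 * Q * y ^ (-(3 * η / 4)))) := by
      gcongr
    refine g3.trans ?_
    have g4 : ((n : ℝ) + 1) * ((n + 1).factorial * (3 * Q * y ^ (-(3 * η / 4)))) =
        ((60 * ((n + 1) * ((n + 1).factorial * Q))) * y ^ (-(3 * η / 4))) / 20 := by ring
    rw [g4]
    linarith
  · have g1 : Y ^ 2 * (1 + (n + 1) * Q * (A + Y ^ C)) + (n + 1) * (3 * Q * Y ^ C) ≤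
        (1 + 6 * (n + 1) * Q) * y ^ (γ + 5 * η / 4) := by
      have k0 : 1 ≤ y ^ (γ + η) := Real.one_le_rpow hy1 (by linarith)
      have k1 : Y ^ C ≤ y ^ (γ + η) := hYC.trans (hmono _ _ (by linarith))
      have k2 : 1 + (n + 1) * Q * (A + Y ^ C) ≤ (1 + 3 * (n + 1) * Q) * y ^ (γ + η) := by
        have : (n + 1) * Q * (A + Y ^ C) ≤ (n + 1) * Q * (3 * y ^ (γ + η)) :=
          mul_le_mul_of_nonneg_left (by linarith) (by positivity)
        linarith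
      have k3 : Y ^ 2 * (1 + (n + 1) * Q * (A + Y ^ C)) ≤
          y ^ (η / 4) * ((1 + 3 * (n + 1) * Q) * y ^ (γ + η)) :=
        mul_le_mul hY2 k2 (by positivity) (hyp _).le
      have k4 : (n + 1) * (3 * Q * Y ^ C) ≤ 3 * (n + 1) * Q * y ^ (γ + 5 * η / 4) := by
        have : (n + 1) * (3 * Q) * Y ^ C ≤ (n + 1) * (3 * Q) * y ^ (γ + 5 * η / 4) :=
          mul_le_mul_of_nonneg_left (hYC.trans (hmono _ _ (by linarith))) (by positivity)
        linarith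
      have k5 : y ^ (η / 4) * ((1 + 3 * (n + 1) * Q) * y ^ (γ + η)) =
          (1 + 3 * (n + 1) * Q) * y ^ (γ + 5 * η / 4) := by
        have : γ + 5 * η / 4 = η / 4 + (γ + η) := by ring
        rw [this, ← hadd (η / 4) (γ + η)]; ring
      linarith
    have g2 : (Y ^ 2 * (1 + (n + 1) * Q * (A + Y ^ C)) + (n + 1) * (3 * Q * Y ^ C)) * W ≤
        (1 + 6 * (n + 1) * Q) * y ^ (γ + 5 * η / 4) * W :=
      mul_le_mul_of_nonneg_right g1 (by linarith)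
    have g3 : (bo + Y ^ C * (2 * E + 1)) * ((Y ^ 2 * (1 + (n + 1) * Q * (A + Y ^ C)) +
        (n + 1) * (3 * Q * Y ^ C)) * W) ≤ ((bo + 3) * y ^ (θ - e / 2 + η / 4)) *
        ((1 + 6 * (n + 1) * Q) * y ^ (γ + 5 * η / 4) * W) :=
      mul_le_mul hEE g2 (by positivity) (by have := hyp (θ - e / 2 + η / 4); positivity)
    have g4 : ((bo + 3) * y ^ (θ - e / 2 + η / 4)) *
        ((1 + 6 * (n + 1) * Q) * y ^ (γ + 5 * η / 4) * W) =
        ((bo + 3) * ((1 + 6 * (n + 1) * Q) * W)) *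
          y ^ (θ - e / 2 + η / 4 + (γ + 5 * η / 4)) := by
      rw [← hadd (θ - e / 2 + η / 4) (γ + 5 * η / 4)]; ring
    have g5 : y ^ (θ - e / 2 + η / 4 + (γ + 5 * η / 4)) ≤ y ^ (θ - η) := hmono _ _ (by linarith)
    have g6 : ((bo + 3) * ((1 + 6 * (n + 1) * Q) * W)) *
          y ^ (θ - e / 2 + η / 4 + (γ + 5 * η / 4)) ≤ y ^ η / 2 * y ^ (θ - η) :=
      mul_le_mul (by linarith) g5 (hyp _).le (by have := hyp η; positivity)
    have g7 : y ^ η / 2 * y ^ (θ - η) = y ^ θ / 2 := by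
      rw [div_mul_eq_mul_div, hadd]
      congr 2
      ring
    linarith
  · have g1 : ((3 * Q * Y ^ C) / A) ^ (n + 1) ≤ (3 * Q) ^ (n + 1) * y ^ (θ - 1 - 3 * η / 4) := by
      calc ((3 * Q * Y ^ C) / A) ^ (n + 1) ≤ (3 * Q * y ^ (-(γ + 3 * η / 4))) ^ (n + 1) :=
            pow_le_pow_left₀ hrat0 hrat _
        _ = (3 * Q) ^ (n + 1) * (y ^ (-(γ + 3 * η / 4))) ^ (n + 1) := mul_pow _ _ _
        _ = (3 * Q) ^ (n + 1) * y ^ (-(γ + 3 * η / 4) * ((n + 1 : ℕ) : ℝ)) := by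
            rw [← Real.rpow_natCast (y ^ _), ← Real.rpow_mul hy0.le]
        _ ≤ (3 * Q) ^ (n + 1) * y ^ (θ - 1 - 3 * η / 4) := by
            refine mul_le_mul_of_nonneg_left (hmono _ _ ?_) (by positivity)
            push_cast
            have : (n : ℝ) * η ≥ 0 := by positivity
            nlinarith
    have g2 : 10 * y * (n.factorial * ((3 * Q * Y ^ C) / A) ^ (n + 1)) ≤
        10 * (n.factorial * (3 * Q) ^ (n + 1)) * y ^ (θ - 3 * η / 4) := by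
      have k1 : 10 * y * (n.factorial * ((3 * Q * Y ^ C) / A) ^ (n + 1)) ≤
          10 * y * (n.factorial * ((3 * Q) ^ (n + 1) * y ^ (θ - 1 - 3 * η / 4))) := by
        gcongr
      have k2 : y ^ (θ - 3 * η / 4) = y * y ^ (θ - 1 - 3 * η / 4) := by
        have : y * y ^ (θ - 1 - 3 * η / 4) = y ^ (1 : ℝ) * y ^ (θ - 1 - 3 * η / 4) := by
          rw [Real.rpow_one]
        rw [this, hadd]
        congr 1
        ring
      rw [k2]
      linarith
    have g3 : bo + Y ^ C * (2 * E + 1) ≤ (bo + 3) * y ^ (θ - 3 * η / 4) :=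
      hEE.trans (mul_le_mul_of_nonneg_left (hmono _ _ (by linarith)) (by linarith))
    have g4 : 10 * y * (n.factorial * ((3 * Q * Y ^ C) / A) ^ (n + 1)) + bo +
        Y ^ C * (2 * E + 1) ≤
        (10 * (n.factorial * (3 * Q) ^ (n + 1)) + bo + 3) * y ^ (θ - 3 * η / 4) := by
      linarith
    calc (10 * y * (n.factorial * ((3 * Q * Y ^ C) / A) ^ (n + 1)) + bo +
        Y ^ C * (2 * E + 1)) * W ≤
        ((10 * (n.factorial * (3 * Q) ^ (n + 1)) + bo + 3) * y ^ (θ - 3 * η / 4)) * W :=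
          mul_le_mul_of_nonneg_right g4 (by linarith)
      _ = ((10 * (n.factorial * (3 * Q) ^ (n + 1)) + bo + 3) * W) * y ^ (θ - 3 * η / 4) := by ring
      _ ≤ (y ^ (3 * η / 4) / 2) * y ^ (θ - 3 * η / 4) :=
          mul_le_mul_of_nonneg_right (by linarith) (hyp _).le
      _ = y ^ θ / 2 := by
          rw [div_mul_eq_mul_div, hadd]
          congr 2
          ring
      _ ≤ Z := hZ

end Pool.Agent.W5h75.SR
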